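import Mathlib
import Pool.Agent.MP_fed7c7_lc.H56.Pell

set_option autoImplicit false

/-!
The central binomial coefficient of `n` and the power `4 ^ n` are read off, modulo `2 * A`, from
the integers nearest to `2 * A * ps A n * ρ` and `2 * A * ps A n * ρ ^ 2`, where
`ρ ^ 2 * (1 - 4 * t) = 1` and `t` is the small root of `t ^ 2 - 2 * A * t + 1`.
-/

namespace Pool.Agent.MP_fed7c7_lc.H7

open Finset Pool.Agent.MP_fed7c7_lc.H56

theorem ps_two (A n : ℤ) : ps A (n + 1 + 1) = 2 * A * ps A (n + 1) - ps A n := by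
  have h1 := ps_succ A (n + 1)
  have h2 := ps_pred A (n + 1)
  rw [add_sub_cancel_right] at h2
  linarith

theorem ps_closed {A : ℤ} {t : ℝ} (ht : 2 * A * t = 1 + t ^ 2) (k : ℕ) :
    (ps A k : ℝ) * t ^ k * (1 - t ^ 2) = t * (1 - (t ^ k) ^ 2) := by
  induction k using Nat.twoStepInduction with
  | zero => simp [ps_zero]
  | one => simp [ps_one]
  | more k h0 h1 =>
    have := ps_two A k
    push_cast at h1 ⊢
    rw [show (k : ℤ) + 2 = k + 1 + 1 by ring, this]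
    push_cast
    rw [pow_succ] at h1
    rw [pow_succ, pow_succ]
    linear_combination (1 + t ^ 2) * h1 - t ^ 2 * h0 +
      (ps A (k + 1) : ℝ) * t ^ k * t * (1 - t ^ 2) * ht

theorem ps_near {A : ℤ} {t : ℝ} (ht : 2 * A * t = 1 + t ^ 2) (t0 : 0 < t) (t1 : t ≤ 1 / 8)
    (k : ℕ) : 0 ≤ 2 * A * (ps A k : ℝ) * t ^ k ∧ 2 * A * (ps A k : ℝ) * t ^ k ≤ 1 + t ∧
      (1 ≤ k → 1 ≤ 2 * A * (ps A k : ℝ) * t ^ k) := by
  have h := ps_closed ht k
  have e : 2 * A * (ps A k : ℝ) * t ^ k * (1 - t ^ 2) = (1 + t ^ 2) * (1 - (t ^ k) ^ 2) := by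
    linear_combination 2 * A * h + (1 - (t ^ k) ^ 2) * ht
  have p0 : 0 < t ^ k := by positivity
  have p1 : t ^ k ≤ 1 := pow_le_one₀ t0.le (by linarith)
  have q0 : 0 < 1 - t ^ 2 := by nlinarith
  have q1 : 0 ≤ 1 - (t ^ k) ^ 2 := by nlinarith
  generalize 2 * A * (ps A k : ℝ) * t ^ k = X at *
  refine ⟨le_of_mul_le_mul_right (by rw [e]; simp only [zero_mul]; positivity) q0,
    le_of_mul_le_mul_right (by rw [e]; nlinarith [sq_nonneg (t ^ k), sq_nonneg t]) q0,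
    fun hk => le_of_mul_le_mul_right ?_ q0⟩
  have p2 : t ^ k ≤ t := pow_le_of_le_one t0.le (by linarith) (by omega)
  rw [e]
  nlinarith [sq_nonneg t, mul_nonneg (sq_nonneg t) q1]

theorem ps_shift {A : ℤ} {t : ℝ} (ht : 2 * A * t = 1 + t ^ 2) (t0 : 0 < t) (t1 : t ≤ 1 / 8)
    (j k : ℕ) : (ps A (j + k : ℕ) : ℝ) * t ^ j = ps A k + t ^ k * (ps A j * t ^ j) := by
  have h1 := ps_closed ht (j + k)
  have h2 := ps_closed ht j
  have h3 := ps_closed ht k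
  have q0 : 0 < t ^ k * (1 - t ^ 2) := mul_pos (by positivity) (by nlinarith)
  apply mul_right_cancel₀ q0.ne'
  rw [pow_add] at h1
  linear_combination h1 - h3 - (t ^ k) ^ 2 * h2

theorem digit {A : ℤ} {t : ℝ} (ht : 2 * A * t = 1 + t ^ 2) (t0 : 0 < t) (t1 : t ≤ 1 / 8)
    {n : ℕ} (hn : 1 ≤ n) (g : ℕ → ℕ) (hg : ∀ j, g j ≤ 4 ^ j) {S K : ℝ}
    (hS : |S - ∑ j ∈ range (n + 1), g j * t ^ j| ≤ K * t ^ (n + 1)) :
    ∃ M : ℤ, |2 * A * (ps A n : ℝ) * S - (g n + 2 * A * M : ℤ)| ≤ (3 * 4 ^ n + 2 * K) * t := by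
  refine ⟨∑ j ∈ range n, g j * ps A (n - j : ℕ), ?_⟩
  obtain ⟨a0, a1, a2⟩ := ps_near ht t0 t1 n
  have a3 := a2 hn
  have hg' : ∀ j, (g j : ℝ) ≤ 4 ^ j := fun j => by exact_mod_cast hg j
  have e1 : ∀ j ∈ range n, 2 * A * (ps A n : ℝ) * (g j * t ^ j) - 2 * A * (g j * ps A (n - j : ℕ)) =
      g j * (t ^ (n - j) * (2 * A * ps A j * t ^ j)) := fun j hj => by
    have := ps_shift ht t0 t1 j (n - j)
    rw [Nat.add_sub_cancel' (mem_range.1 hj).le] at this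
    linear_combination 2 * A * g j * this
  have e2 : ∀ j ∈ range n, 0 ≤ g j * (t ^ (n - j) * (2 * A * (ps A j : ℝ) * t ^ j)) ∧
      g j * (t ^ (n - j) * (2 * A * (ps A j : ℝ) * t ^ j)) ≤ 4 ^ j * (t * 2) := fun j hj => by
    obtain ⟨b0, b1, -⟩ := ps_near ht t0 t1 j
    have p2 : t ^ (n - j) ≤ t :=
      pow_le_of_le_one t0.le (by linarith) (by have := mem_range.1 hj; omega)
    exact ⟨by positivity, mul_le_mul (hg' j) (mul_le_mul p2 (by linarith) b0 t0.le)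
      (by positivity) (by positivity)⟩
  have e3 : ∑ j ∈ range n, (4 : ℝ) ^ j ≤ 4 ^ n := by
    have := geom_sum_mul (4 : ℝ) n
    have h : 0 ≤ ∑ j ∈ range n, (4 : ℝ) ^ j := by positivity
    linarith
  have s0 := sum_nonneg fun j hj => (e2 j hj).1
  have s1 := sum_le_sum fun j hj => (e2 j hj).2
  rw [← sum_congr rfl e1, sum_sub_distrib, ← mul_sum, ← mul_sum] at s0 s1
  rw [← sum_mul] at s1
  rw [sum_range_succ] at hS
  push_cast at s0 s1 ⊢
  generalize ∑ j ∈ range n, (g j : ℝ) * ps A (n - j : ℕ) = M at *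
  generalize ∑ j ∈ range n, (g j : ℝ) * t ^ j = P at *
  have K0 : 0 ≤ K * t := by
    have := (abs_nonneg _).trans hS
    rw [pow_succ', ← mul_assoc] at this
    exact nonneg_of_mul_nonneg_left this (by positivity)
  have p0 : 0 < t ^ n := by positivity
  have c0 : 0 ≤ 2 * A * (ps A n : ℝ) := nonneg_of_mul_nonneg_left a0 p0
  have g0 : (0 : ℝ) ≤ g n := by positivity
  have g1 := hg' n
  generalize 2 * A * (ps A n : ℝ) = c at *
  have f1 : |c * (S - (P + g n * t ^ n))| ≤ 2 * (K * t) := by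
    rw [abs_mul, abs_of_nonneg c0]
    calc _ ≤ c * (K * t ^ (n + 1)) := mul_le_mul_of_nonneg_left hS c0
      _ = c * t ^ n * (K * t) := by ring
      _ ≤ _ := mul_le_mul_of_nonneg_right (by linarith) K0
  have f2 : 0 ≤ g n * (c * t ^ n - 1) := mul_nonneg g0 (by linarith)
  have f3 : g n * (c * t ^ n - 1) ≤ 4 ^ n * t := mul_le_mul g1 (by linarith) (by linarith)
    (by positivity)
  have f4 := mul_le_mul_of_nonneg_right e3 (show 0 ≤ t * 2 by linarith)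
  have f5 : 0 ≤ 4 ^ n * t := by positivity
  rw [abs_le] at f1 ⊢
  constructor <;> linarith [f1.1, f1.2]

theorem central_le (j : ℕ) : j.centralBinom ≤ 4 ^ j := by
  have := Nat.choose_le_two_pow (2 * j) j
  rwa [pow_mul] at this

theorem ode (n : ℕ) (x : ℝ) : ∃ d, HasDerivAt (fun y : ℝ =>
    ∑ j ∈ range (n + 1), (j.centralBinom : ℝ) * y ^ j) d x ∧
      (1 - 4 * x) * d - 2 * ∑ j ∈ range (n + 1), (j.centralBinom : ℝ) * x ^ j =
        -((n + 1) * (n + 1).centralBinom * x ^ n) := by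
  induction n with
  | zero => exact ⟨0, by simpa using hasDerivAt_const x 1, by simp [Nat.centralBinom]⟩
  | succ n ih =>
    obtain ⟨d, h1, h2⟩ := ih
    refine ⟨d + (n + 1).centralBinom * ((n + 1 : ℕ) * x ^ n), ?_, ?_⟩
    · simp only [sum_range_succ _ (n + 1)]
      exact h1.add ((hasDerivAt_pow (n + 1) x).const_mul _)
    · have h3 := Nat.succ_mul_centralBinom_succ (n + 1)
      rw [sum_range_succ _ (n + 1)]
      have h4 : ((n : ℝ) + 1 + 1) * (n + 1 + 1).centralBinom =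
          2 * (2 * (n + 1) + 1) * (n + 1).centralBinom := by exact_mod_cast h3
      push_cast
      linear_combination h2 + x ^ (n + 1) * h4

theorem geo {x : ℝ} (n : ℕ) :
    (∑ j ∈ range (n + 1), ((4 ^ j : ℕ) : ℝ) * x ^ j) * (1 - 4 * x) = 1 - (4 * x) ^ (n + 1) := by
  have := geom_sum_mul (4 * x) (n + 1)
  simp only [mul_pow] at this ⊢
  push_cast
  linear_combination -this

theorem sum_le_two {x : ℝ} (x0 : 0 ≤ x) (x1 : x ≤ 1 / 8) (n : ℕ) :
    0 ≤ ∑ j ∈ range (n + 1), (j.centralBinom : ℝ) * x ^ j ∧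
      ∑ j ∈ range (n + 1), (j.centralBinom : ℝ) * x ^ j ≤ 2 := by
  refine ⟨by positivity, (sum_le_sum fun j _ => mul_le_mul_of_nonneg_right
    (Nat.cast_le.2 (central_le j)) (by positivity)).trans ?_⟩
  have h := geo (x := x) n
  have h0 : 0 ≤ ∑ j ∈ range (n + 1), ((4 ^ j : ℕ) : ℝ) * x ^ j := by positivity
  have h1 : 0 ≤ (4 * x) ^ (n + 1) := by positivity
  nlinarith

theorem tail {t ρ : ℝ} (t0 : 0 < t) (t1 : t ≤ 1 / 8) (r0 : 0 < ρ) (hr : ρ ^ 2 * (1 - 4 * t) = 1)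
    (n : ℕ) : |ρ - ∑ j ∈ range (n + 1), (j.centralBinom : ℝ) * t ^ j| ≤
      32 * (n + 1) * 4 ^ n * t ^ (n + 1) := by
  choose d h1 h2 using ode n
  set S := fun y : ℝ => ∑ j ∈ range (n + 1), (j.centralBinom : ℝ) * y ^ j with hS
  have hd : ∀ x, HasDerivAt (fun y => S y ^ 2 * (1 - 4 * y))
      (-(2 * S x * ((n + 1) * (n + 1).centralBinom * x ^ n))) x := fun x => by
    have := ((h1 x).pow 2).mul ((hasDerivAt_const x 1).sub ((hasDerivAt_id x).const_mul 4))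
    refine HasDerivAt.congr_deriv this ?_
    simp only [Pi.pow_apply, Pi.sub_apply, id]
    push_cast
    linear_combination 2 * S x * h2 x
  obtain ⟨c, ⟨c0, c1⟩, hc⟩ := exists_hasDerivAt_eq_slope _ _ t0
    (fun x _ => (hd x).continuousAt.continuousWithinAt) fun x _ => hd x
  have S0 : S 0 = 1 := by simp [hS, sum_range_succ']
  rw [S0, sub_zero, eq_div_iff t0.ne'] at hc
  obtain ⟨u0, u1⟩ := sum_le_two c0.le (by linarith) n
  obtain ⟨w0, -⟩ := sum_le_two t0.le t1 n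
  change 0 ≤ S c at u0
  change S c ≤ 2 at u1
  change 0 ≤ S t at w0
  change |ρ - S t| ≤ _
  have b1 : (((n + 1).centralBinom : ℕ) : ℝ) ≤ 4 ^ (n + 1) := by exact_mod_cast central_le _
  have b2 : c ^ n ≤ t ^ n := pow_le_pow_left₀ c0.le c1.le n
  have b3 : (n + 1) * (n + 1).centralBinom * c ^ n ≤ (n + 1) * 4 ^ (n + 1) * t ^ n := by gcongr
  have b4 : 0 ≤ (n + 1) * (n + 1).centralBinom * c ^ n := by positivity
  have b5 := mul_le_mul_of_nonneg_right (mul_le_mul u1 b3 b4 zero_le_two) t0.le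
  have b6 := mul_nonneg (mul_nonneg u0 b4) t0.le
  have r1 : ρ ^ 2 ≤ 2 := by nlinarith [sq_nonneg ρ]
  have r2 : 1 ≤ ρ := by nlinarith [sq_nonneg ρ, mul_pos (pow_pos r0 2) t0]
  have e : (ρ - S t) * (ρ + S t) =
      ρ ^ 2 * (2 * (S c * ((n + 1) * (n + 1).centralBinom * c ^ n) * t)) := by
    linear_combination ρ ^ 2 * hc + (S t) ^ 2 * hr
  rw [show 32 * ((n : ℝ) + 1) * 4 ^ n * t ^ (n + 1) =
    2 * (2 * (2 * ((n + 1) * 4 ^ (n + 1) * t ^ n) * t)) by ring]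
  generalize S c * ((n + 1) * (n + 1).centralBinom * c ^ n) * t = X at *
  generalize 2 * (((n : ℝ) + 1) * 4 ^ (n + 1) * t ^ n) * t = Y at *
  have f0 : 0 ≤ ρ - S t := nonneg_of_mul_nonneg_left (by rw [e]; positivity) (by linarith : 0 < ρ + S t)
  rw [abs_of_nonneg f0]
  nlinarith [mul_le_mul r1 b5 b6 zero_le_two]

/-- The two digits. -/
theorem digits {A : ℤ} {t ρ : ℝ} (ht : 2 * A * t = 1 + t ^ 2) (t0 : 0 < t) (r0 : 0 < ρ)
    (hr : ρ ^ 2 * (1 - 4 * t) = 1) {n b : ℕ} (hn : 1 ≤ n) (hb : 1 ≤ b)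
    (t1 : 700 * b * (n + 1) * 4 ^ n * t ≤ 1) : ∃ M N : ℤ,
      b * |2 * A * (ps A n : ℝ) * ρ - (n.centralBinom + 2 * A * M : ℤ)| +
        |2 * A * (ps A n : ℝ) * ρ ^ 2 - (4 ^ n + 2 * A * N : ℤ)| ≤ 1 / 8 := by
  have b1 : (1 : ℝ) ≤ b := by exact_mod_cast hb
  have n1 : (1 : ℝ) ≤ n + 1 := by linarith [n.cast_nonneg (α := ℝ)]
  have p1 : (1 : ℝ) ≤ 4 ^ n := one_le_pow₀ (by norm_num)
  have q1 : 4 ^ n * t ≤ (n + 1) * (4 ^ n * t) := le_mul_of_one_le_left (by positivity) n1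
  have q2 : (n + 1) * (4 ^ n * t) ≤ b * ((n + 1) * (4 ^ n * t)) :=
    le_mul_of_one_le_left (by positivity) b1
  have q3 : t ≤ 4 ^ n * t := le_mul_of_one_le_left t0.le p1
  have t2 : t ≤ 1 / 8 := by linarith
  obtain ⟨M, hM⟩ := digit ht t0 t2 hn _ central_le (tail t0 t2 r0 hr n)
  obtain ⟨N, hN⟩ := digit ht t0 t2 hn (fun j => 4 ^ j) (fun _ => le_rfl) (S := ρ ^ 2)
    (K := 8 * 4 ^ n) (by
      have h := geo (x := t) n
      have r1 : ρ ^ 2 ≤ 2 := by nlinarith [sq_nonneg ρ]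
      generalize ∑ j ∈ range (n + 1), ((4 ^ j : ℕ) : ℝ) * t ^ j = S at *
      rw [show ρ ^ 2 - S = ρ ^ 2 * (4 * t) ^ (n + 1) by linear_combination S * hr - ρ ^ 2 * h,
        abs_of_nonneg (by positivity)]
      calc _ ≤ 2 * (4 * t) ^ (n + 1) := mul_le_mul_of_nonneg_right r1 (by positivity)
        _ = _ := by ring)
  refine ⟨M, N, ?_⟩
  have := mul_le_mul_of_nonneg_left hM (show (0 : ℝ) ≤ b by positivity)
  have q4 := mul_le_mul_of_nonneg_left q1 (show (0 : ℝ) ≤ b by positivity)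
  push_cast at hN this ⊢
  linarith

end Pool.Agent.MP_fed7c7_lc.H7
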