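import Mathlib
import Pool.Agent.MP_fed7c7_lc.H56.PF
import Pool.Agent.MP_fed7c7_lc.H56.Bits
import Pool.Agent.MP_fed7c7_lc.H7.Digit

set_option autoImplicit false

/-!
One polynomial inequality which says that `p ^ 2 < q ^ 2` and that `L` is the integer nearest to
`m * (ρ ^ 2 ± b * ρ)`.
-/

namespace Pool.Agent.MP_fed7c7_lc.H7

open Finset Pool.Agent.MP_fed7c7_lc.H56

/-- The norm of `u + w * τ` when `τ ^ 2 + p * τ + r = 0`. -/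
def nrm (p r u w : ℤ) : ℤ := u ^ 2 - p * u * w + r * w ^ 2

/-- The norm of a quartic expression in `τ` when `τ ^ 2 + p * τ + r = 0`. -/
def nr4 (p r n0 n1 n2 n3 n4 : ℤ) : ℤ :=
  nrm p r (n0 - r * n2 + p * r * n3 + (r ^ 2 - p ^ 2 * r) * n4)
    (n1 - p * n2 + (p ^ 2 - r) * n3 + (2 * p * r - p ^ 3) * n4)

def r1 (A L m e s w : ℤ) : ℤ :=
  0 - nr4 (8 * A - 2) (17 - 8 * A) (w ^ 2 * m ^ 4) (0 - 2 * w ^ 2 * (2 * L * m + e) * m ^ 2)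
    (w ^ 2 * ((2 * L * m + e) ^ 2 + 2 * L ^ 2 * m ^ 2) - 2 * s * w * m ^ 2)
    (2 * s * w * (2 * L * m - e) - 2 * w ^ 2 * L ^ 2 * (2 * L * m + e))
    ((w * L ^ 2 - s) ^ 2)

/-- The polynomial whose positivity is the rounding condition. -/
def rr (A L m b p q : ℤ) : ℤ := r1 A L m (m ^ 2 * b ^ 2) (q ^ 2 - p ^ 2) (16 * q ^ 2)

section
variable {σ : Type} {A L m b p q n0 n1 n2 n3 n4 : (σ → ℤ) → ℤ}

@[fun_prop]
theorem pf_nr4 (_ : PF p) (_ : PF q) (_ : PF n0) (_ : PF n1) (_ : PF n2) (_ : PF n3) (_ : PF n4) :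
    PF fun v => nr4 (p v) (q v) (n0 v) (n1 v) (n2 v) (n3 v) (n4 v) := by
  unfold nr4 nrm; fun_prop

@[fun_prop]
theorem pf_r1 (_ : PF A) (_ : PF L) (_ : PF m) (_ : PF b) (_ : PF p) (_ : PF q) :
    PF fun v => r1 (A v) (L v) (m v) (b v) (p v) (q v) := by
  unfold r1; fun_prop

@[fun_prop]
theorem pf_rr (_ : PF A) (_ : PF L) (_ : PF m) (_ : PF b) (_ : PF p) (_ : PF q) :
    PF fun v => rr (A v) (L v) (m v) (b v) (p v) (q v) := by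
  unfold rr; fun_prop

end

/-- The quartic expression. -/
def nn (x y z : ℝ) : ℝ := (x - y) ^ 2 - 2 * z * (x + y) + z ^ 2

theorem nr4_eq {p r n0 n1 n2 n3 n4 : ℤ} {x y : ℝ} (hp : (p : ℝ) = -(x + y)) (hr : (r : ℝ) = x * y) :
    (nr4 p r n0 n1 n2 n3 n4 : ℝ) = (n0 + n1 * x + n2 * x ^ 2 + n3 * x ^ 3 + n4 * x ^ 4) *
      (n0 + n1 * y + n2 * y ^ 2 + n3 * y ^ 3 + n4 * y ^ 4) := by
  unfold nr4 nrm
  push_cast
  rw [hp, hr]
  ring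

theorem r1_eq {A L m e s w : ℤ} {x y : ℝ} (hp : x + y = 2 - 8 * A) (hr : x * y = 17 - 8 * A) :
    (r1 A L m e s w : ℝ) = -(nn (w * (L * x - m) ^ 2) (w * e * x) (s * x ^ 2) *
      nn (w * (L * y - m) ^ 2) (w * e * y) (s * y ^ 2)) := by
  rw [r1, Int.cast_sub, nr4_eq (x := x) (y := y) (by push_cast; linarith) (by push_cast; linarith),
    Int.cast_zero, zero_sub]
  congr 2 <;> (unfold nn; push_cast; ring)

theorem nn_nonneg {x y z : ℝ} (hx : 0 ≤ x) (h : y ≤ 0 ∨ z ≤ 0) : 0 ≤ nn x y z := by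
  unfold nn
  rcases le_total y 0 with g | g
  · nlinarith [sq_nonneg (x + y - z), mul_nonneg hx (neg_nonneg.2 g)]
  · rcases h with h | h
    · nlinarith [sq_nonneg (x + y - z), mul_nonneg hx (neg_nonneg.2 h)]
    · nlinarith [sq_nonneg (x - y), sq_nonneg z, mul_nonneg (neg_nonneg.2 h) (add_nonneg hx g)]

theorem exists_root {A : ℤ} (hA : 1 ≤ A) : ∃ t α : ℝ, t + α = 2 * A ∧ t * α = 1 ∧ 0 < t ∧
    A ≤ α := by
  have h1 : (1 : ℝ) ≤ A := by exact_mod_cast hA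
  have h2 := Real.sq_sqrt (show (0 : ℝ) ≤ A ^ 2 - 1 by nlinarith)
  have h3 := Real.sqrt_nonneg ((A : ℝ) ^ 2 - 1)
  refine ⟨A - √(A ^ 2 - 1), A + √(A ^ 2 - 1), by ring, by linarith, ?_, by linarith⟩
  by_contra g
  nlinarith

theorem nn_factor {L m b s w τ ρ : ℝ} (h : ρ ^ 2 * τ = 1) :
    nn (w * (L * τ - m) ^ 2) (w * (m ^ 2 * b ^ 2) * τ) (s * τ ^ 2) = τ ^ 4 *
      ((w * (L - m * ρ ^ 2 - m * b * ρ) ^ 2 - s) * (w * (L - m * ρ ^ 2 + m * b * ρ) ^ 2 - s)) := by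
  have h0 : ρ ≠ 0 := by rintro rfl; simp at h
  obtain rfl : τ = 1 / ρ ^ 2 := by field_simp; linarith
  unfold nn
  field_simp
  ring

theorem rr_sound {A L m b p q : ℤ} (hA : 1 ≤ A) (h : 0 < rr A L m b p q) :
    p ^ 2 < q ^ 2 ∧ ∃ t ρ : ℝ, 2 * A * t = 1 + t ^ 2 ∧ 0 < t ∧ A * t ≤ 1 ∧ 0 < ρ ∧
      ρ ^ 2 * (1 - 4 * t) = 1 ∧
      (|L - m * ρ ^ 2 - m * b * ρ| < 1 / 4 ∨ |L - m * ρ ^ 2 + m * b * ρ| < 1 / 4) := by
  obtain ⟨t, α, h1, h2, t0, h3⟩ := exists_root hA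
  have A1 : (1 : ℝ) ≤ A := by exact_mod_cast hA
  have e := r1_eq (A := A) (L := L) (m := m) (e := m ^ 2 * b ^ 2) (s := q ^ 2 - p ^ 2)
    (w := 16 * q ^ 2) (x := 1 - 4 * t) (y := 1 - 4 * α) (by linarith) (by linarith)
  have h' : (0 : ℝ) < (rr A L m b p q : ℤ) := by exact_mod_cast h
  rw [rr, e] at h'
  push_cast at h'
  have g2 := nn_nonneg (x := 16 * (q : ℝ) ^ 2 * (L * (1 - 4 * α) - m) ^ 2)
    (y := 16 * (q : ℝ) ^ 2 * (m ^ 2 * b ^ 2) * (1 - 4 * α))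
    (z := (q ^ 2 - p ^ 2) * (1 - 4 * α) ^ 2) (by positivity)
    (Or.inl (mul_nonpos_of_nonneg_of_nonpos (by positivity) (by linarith)))
  have g1 := neg_of_mul_neg_left (neg_pos.1 h') g2
  have g3 := mt (nn_nonneg (by positivity)) g1.not_ge
  rw [not_or, not_le, not_le] at g3
  have τ0 : 0 < 1 - 4 * t := pos_of_mul_pos_right g3.1 (by positivity)
  have s0 : (0 : ℝ) < q ^ 2 - p ^ 2 := pos_of_mul_pos_left g3.2 (by positivity)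
  have hr : (√(1 - 4 * t))⁻¹ ^ 2 * (1 - 4 * t) = 1 := by
    rw [inv_pow, Real.sq_sqrt τ0.le, inv_mul_cancel₀ τ0.ne']
  refine ⟨by exact_mod_cast sub_pos.1 s0, t, _, by linear_combination -t * h1 + h2, t0,
    by nlinarith, by positivity, hr, ?_⟩
  rw [nn_factor hr] at g1
  have g4 := neg_of_mul_neg_right g1 (by positivity)
  have key : ∀ x : ℝ, 16 * (q : ℝ) ^ 2 * x ^ 2 - (q ^ 2 - p ^ 2) < 0 → |x| < 1 / 4 := fun x hx =>
    abs_lt_of_sq_lt_sq (lt_of_mul_lt_mul_left (a := 16 * (q : ℝ) ^ 2)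
      (by nlinarith [sq_nonneg (p : ℝ)]) (by positivity)) (by norm_num)
  rcases mul_neg_iff.1 g4 with g | g
  exacts [Or.inr (key _ g.2), Or.inl (key _ g.1)]

theorem rr_complete {A : ℤ} (hA : 8 ≤ A) : ∃ t ρ : ℝ, 2 * A * t = 1 + t ^ 2 ∧ 0 < t ∧
    A * t ≤ 1 ∧ 0 < ρ ∧ ρ ^ 2 * (1 - 4 * t) = 1 ∧ ∀ L m b p q : ℤ, 4 * p ^ 2 ≤ q ^ 2 → q ≠ 0 →
      1 ≤ m * b → |L - m * ρ ^ 2 - m * b * ρ| ≤ 1 / 8 → 0 < rr A L m b p q := by
  obtain ⟨t, α, h1, h2, t0, h3⟩ := exists_root (A := A) (by omega)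
  have A1 : (8 : ℝ) ≤ A := by exact_mod_cast hA
  have t1 : A * t ≤ 1 := by nlinarith
  have τ0 : 0 < 1 - 4 * t := by nlinarith
  have hr : (√(1 - 4 * t))⁻¹ ^ 2 * (1 - 4 * t) = 1 := by
    rw [inv_pow, Real.sq_sqrt τ0.le, inv_mul_cancel₀ τ0.ne']
  have r0 : 0 < (√(1 - 4 * t))⁻¹ := by positivity
  refine ⟨t, _, by linear_combination -t * h1 + h2, t0, t1, r0, hr, fun L m b p q hp hq hm h => ?_⟩
  generalize (√(1 - 4 * t))⁻¹ = ρ at *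
  have r2 : 1 ≤ ρ := by nlinarith [sq_nonneg ρ, mul_pos (pow_pos r0 2) t0]
  have e := r1_eq (A := A) (L := L) (m := m) (e := m ^ 2 * b ^ 2) (s := q ^ 2 - p ^ 2)
    (w := 16 * q ^ 2) (x := 1 - 4 * t) (y := 1 - 4 * α) (by linarith) (by linarith)
  rw [← Int.cast_pos (R := ℝ), rr, e]
  push_cast
  rw [nn_factor hr, neg_pos]
  have q0 : (0 : ℝ) < q ^ 2 := by positivity
  have p0 : 4 * (p : ℝ) ^ 2 ≤ q ^ 2 := by exact_mod_cast hp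
  have m1 : (1 : ℝ) ≤ m * b := by exact_mod_cast hm
  have m2 : 1 ≤ m * b * ρ := one_le_mul_of_one_le_of_one_le m1 r2
  refine mul_neg_of_neg_of_pos (mul_neg_of_pos_of_neg (by positivity)
    (mul_neg_of_neg_of_pos ?_ ?_)) ?_
  · have := mul_le_mul_of_nonneg_left (sq_le_sq' (abs_le.1 h).1 (abs_le.1 h).2) q0.le
    linarith
  · have g : 1 ≤ L - m * ρ ^ 2 + m * b * ρ := by linarith [(abs_le.1 h).1]
    have := mul_le_mul_of_nonneg_left (one_le_pow₀ (n := 2) g) q0.le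
    linarith [sq_nonneg (p : ℝ)]
  · have y0 : 0 < 16 * (q : ℝ) ^ 2 * (m ^ 2 * b ^ 2) * (4 * α - 1) :=
      mul_pos (mul_pos (by linarith) (by rw [← mul_pow]; positivity)) (by linarith)
    have z0 : 0 < ((q : ℝ) ^ 2 - p ^ 2) * (1 - 4 * α) ^ 2 :=
      mul_pos (by linarith) (sq_pos_of_neg (by linarith))
    have := mul_pos y0 z0
    unfold nn
    generalize ((q : ℝ) ^ 2 - p ^ 2) * (1 - 4 * α) ^ 2 = z at *
    generalize 16 * (q : ℝ) ^ 2 * (L * (1 - 4 * α) - m) ^ 2 = x at *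
    rw [show 16 * (q : ℝ) ^ 2 * (m ^ 2 * b ^ 2) * (1 - 4 * α) =
      -(16 * (q : ℝ) ^ 2 * (m ^ 2 * b ^ 2) * (4 * α - 1)) by ring]
    generalize 16 * (q : ℝ) ^ 2 * (m ^ 2 * b ^ 2) * (4 * α - 1) = y at *
    nlinarith [sq_nonneg (x + y - z)]

end Pool.Agent.MP_fed7c7_lc.H7
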