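import Mathlib
import Pool.Agent.MP_fed7c7_lc.H7.Round

set_option autoImplicit false

/-!
The rounding condition as a congruence for `4 ^ n ± b * centralBinom n`.
-/

namespace Pool.Agent.MP_fed7c7_lc.H7

open Finset Pool.Agent.MP_fed7c7_lc.H56

theorem small_t {A : ℤ} {n b : ℕ} {t : ℝ} (hA : 700 * b * (n + 1) * 4 ^ n ≤ A) (t0 : 0 < t)
    (t1 : A * t ≤ 1) : 700 * b * (n + 1) * 4 ^ n * t ≤ 1 := by
  have : (700 * b * (n + 1) * 4 ^ n : ℝ) ≤ A := by exact_mod_cast hA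
  exact (mul_le_mul_of_nonneg_right this t0.le).trans t1

theorem big_A {A : ℤ} {n b : ℕ} (hb : 1 ≤ b) (hA : 700 * b * (n + 1) * 4 ^ n ≤ A) :
    700 * (n + 1) ≤ A := by
  have h1 : (1 : ℤ) ≤ b * 4 ^ n := Int.mul_pos (by omega) (by positivity)
  nlinarith

theorem read_sound {A C L p q Z : ℤ} {n b : ℕ} (hn : 1 ≤ n) (hb : 1 ≤ b)
    (hA : 700 * b * (n + 1) * 4 ^ n ≤ A) (hC : C = ps A n ∨ C = -ps A n)
    (h : 0 < rr A L (2 * A * C) b p q) (hZ : Z ∣ 2 * A) (hL : Z ∣ L) :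
    Z ∣ 4 ^ n + b * n.centralBinom ∨ Z ∣ 4 ^ n - b * n.centralBinom := by
  obtain ⟨-, t, ρ, ht, t0, t1, r0, hr, h⟩ := rr_sound (by have := big_A hb hA; omega) h
  obtain ⟨M, N, g⟩ := digits ht t0 r0 hr hn hb (small_t hA t0 t1)
  rw [← abs_of_nonneg (show (0 : ℝ) ≤ b by positivity), ← abs_mul] at g
  have g1 := abs_le.1 (le_trans (le_add_of_nonneg_right (abs_nonneg _)) g)
  have g2 := abs_le.1 (le_trans (le_add_of_nonneg_left (abs_nonneg _)) g)
  have key : ∀ x : ℤ, |(x : ℝ)| < 1 → x = 0 := fun x hx =>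
    Int.abs_lt_one_iff.1 (by exact_mod_cast hx)
  obtain ⟨z, hz⟩ := hZ
  obtain ⟨l, rfl⟩ := hL
  push_cast at g1 g2
  rcases hC with rfl | rfl <;> rcases h with h | h <;> rw [abs_lt] at h <;> push_cast at h
  · have := key (Z * l - (4 ^ n + 2 * A * N) - b * (n.centralBinom + 2 * A * M))
      (by push_cast; rw [abs_lt]; constructor <;> linarith)
    exact Or.inl ⟨l - z * N - z * b * M, by linear_combination -this - (N + b * M) * hz⟩
  · have := key (Z * l - (4 ^ n + 2 * A * N) + b * (n.centralBinom + 2 * A * M))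
      (by push_cast; rw [abs_lt]; constructor <;> linarith)
    exact Or.inr ⟨l - z * N + z * b * M, by linear_combination -this - (N - b * M) * hz⟩
  · have := key (Z * l + (4 ^ n + 2 * A * N) + b * (n.centralBinom + 2 * A * M))
      (by push_cast; rw [abs_lt]; constructor <;> linarith)
    exact Or.inl ⟨-l - z * N - z * b * M, by linear_combination this - (N + b * M) * hz⟩
  · have := key (Z * l + (4 ^ n + 2 * A * N) - b * (n.centralBinom + 2 * A * M))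
      (by push_cast; rw [abs_lt]; constructor <;> linarith)
    exact Or.inr ⟨-l - z * N + z * b * M, by linear_combination this - (N - b * M) * hz⟩

theorem read_complete {A Z : ℤ} {n b : ℕ} (hn : 1 ≤ n) (hb : 1 ≤ b)
    (hA : 700 * b * (n + 1) * 4 ^ n ≤ A) (hZ : Z ∣ 2 * A)
    (h : Z ∣ 4 ^ n + b * n.centralBinom) : ∃ l : ℤ, ∀ p q : ℤ, 4 * p ^ 2 ≤ q ^ 2 → q ≠ 0 →
      0 < rr A (Z * l) (2 * A * ps A n) b p q := by
  have A1 := big_A hb hA
  obtain ⟨t, ρ, ht, t0, t1, r0, hr, g0⟩ := rr_complete (A := A) (by omega)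
  obtain ⟨M, N, g⟩ := digits ht t0 r0 hr hn hb (small_t hA t0 t1)
  rw [← abs_of_nonneg (show (0 : ℝ) ≤ b by positivity), ← abs_mul] at g
  obtain ⟨l, hl⟩ := h.add (hZ.mul_right (N + b * M))
  have c0 : 0 < ps A n := ps_zero A ▸ ps_strictMono (by omega) (by omega)
  refine ⟨l, fun p q hp hq => g0 _ _ _ _ _ hp hq
    (Int.mul_pos (Int.mul_pos (by omega) c0) (by omega)) ?_⟩
  rw [← hl, abs_sub_comm]
  refine le_trans (le_of_eq ?_) ((abs_add_le _ _).trans g)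
  congr 1
  push_cast
  ring

theorem large {V s : ℤ} {n b : ℕ} (hb : b ≤ n) (hn : 1 ≤ n) (h0 : V ≠ 0) (hd : (4 * n : ℤ) ∣ V)
    (h : s ^ 2 = ((4 * n + 1) ^ 2 - 1) * V ^ 2 + 1) : 700 * b * (n + 1) * 4 ^ n ≤ V ^ 2 := by
  obtain ⟨j, rfl⟩ := exists_index (by omega) h
  have d1 : (4 * n : ℤ) ∣ j := dv (hd.sub (dv (ps_index (4 * n + 1) j) rfl |>
    (show (4 * n : ℤ) ∣ 4 * n + 1 - 1 by simp).trans)) (by ring)
  have j0 : j ≠ 0 := by rintro rfl; exact h0 (ps_zero _)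
  have d2 := Int.le_of_dvd (abs_pos.2 j0) ((dvd_abs _ _).2 d1)
  have d3 : ps (4 * n + 1) ((n + 3 : ℕ) : ℤ) ≤ |ps (4 * n + 1) j| := by
    rw [abs_ps (by omega)]
    exact (ps_strictMono (by omega)).monotone (by push_cast; omega)
  have d4 := (ps_bounds (A := 4 * n + 1) (by omega) (n + 2)).1
  rw [← sq_abs]
  generalize |ps (4 * n + 1) j| = W at *
  have d5 : (2 * (4 * n + 1) - 1 : ℤ) ^ (n + 2) ≤ W := d4.trans (by exact_mod_cast d3)
  have n1 : (1 : ℤ) ≤ n := by omega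
  have d6 : (2 : ℤ) ^ n ≤ (2 * (4 * n + 1) - 1) ^ n := pow_le_pow_left₀ (by omega) (by omega) n
  have d7 : 2 ^ n * (64 * n ^ 2 + 16 * n) ≤ W := by
    refine le_trans ?_ d5
    rw [pow_add]
    exact mul_le_mul d6 (by nlinarith) (by positivity) (pow_nonneg (by omega) _)
  refine le_trans ?_ (pow_le_pow_left₀ (by positivity) d7 2)
  rw [mul_pow, ← pow_mul, mul_comm n 2, pow_mul, mul_comm (_ ^ n)]
  refine mul_le_mul_of_nonneg_right ?_ (by positivity)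
  have b1 : (b : ℤ) ≤ n := by omega
  have n0 : (0 : ℤ) < n := n1
  have n2 : (1 : ℤ) ≤ n ^ 2 := pow_pos n0 2
  nlinarith [mul_le_mul_of_nonneg_right b1 (show (0 : ℤ) ≤ n + 1 by omega),
    mul_le_mul_of_nonneg_right n2 n0.le, mul_le_mul_of_nonneg_right n2 (sq_nonneg (n : ℤ))]

theorem two_adic {n r k : ℕ} (h : 2 ^ r ≤ n) {e : ℤ} (he : e = 1 ∨ e = -1) :
    (2 ^ r * 2 ^ k : ℤ) ∣ 4 ^ n + e * (2 ^ r * n.centralBinom) ↔ (2 ^ k : ℤ) ∣ n.centralBinom := by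
  have h1 : r < n := (Nat.pow_lt_pow_iff_right one_lt_two).1 (h.trans_lt n.lt_two_pow_self)
  have h2 : s2 n ≤ n := Nat.digit_sum_le 2 n
  have h3 : ∀ j : ℕ, (2 ^ j : ℤ) ∣ n.centralBinom ↔ j ≤ s2 n := fun j => by
    rw [← dvd_central]; exact_mod_cast Iff.rfl
  obtain ⟨m, hm⟩ := Nat.exists_eq_add_of_le (show r ≤ 2 * n by omega)
  rw [show (4 : ℤ) ^ n + e * (2 ^ r * n.centralBinom) = 2 ^ r * (2 ^ m + e * n.centralBinom) by
    rw [show (4 : ℤ) = 2 ^ 2 by norm_num, ← pow_mul, hm]; ring,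
    mul_dvd_mul_iff_left (by positivity)]
  have h4 : ∀ j ≤ m, (2 ^ j : ℤ) ∣ 2 ^ m + e * n.centralBinom ↔ j ≤ s2 n := fun j hj => by
    rw [dvd_add_right (pow_dvd_pow 2 hj), ← h3]
    rcases he with rfl | rfl <;> simp
  rw [h3]
  refine ⟨fun g => ?_, fun g => (h4 k (by omega)).2 g⟩
  by_contra g1
  have := (h4 (s2 n + 1) (by omega)).1 ((pow_dvd_pow 2 (by omega)).trans g)
  omega

end Pool.Agent.MP_fed7c7_lc.H7
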