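import Mathlib
import Pool.Agent.MP_fed7c7_lc.H56.Code
import Pool.Agent.MP_fed7c7_lc.H7.Read

set_option autoImplicit false

/-!
The solvability of the universal equation in terms of any relation which expresses the
divisibility `b * Y ∣ 4 ^ X + b * centralBinom X`.
-/

namespace Pool.Agent.MP_fed7c7_lc.H7

open Finset Pool.Agent.MP_fed7c7_lc.H56

theorem nN_pow (d : Dat) (r : ℕ) : ∃ k : ℕ, nN d (2 * hf d (2 ^ r)) ^ 2 = 2 ^ k :=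
  ⟨_, by rw [nN, hf, ← pow_mul, ← pow_add, ← pow_add, ← pow_succ', ← pow_mul, ← pow_mul]⟩

theorem reduce (K : ℤ → ℤ → ℤ → ℤ → ℤ → Prop)
    (hs : ∀ {X Y b p q}, K X Y b p q → p ^ 2 < q ^ 2 ∧ b ≠ 0 ∧ ∀ n c : ℕ, X = n → b = c → c ≤ n →
      b * Y ∣ 4 ^ n + b * n.centralBinom ∨ b * Y ∣ 4 ^ n - b * n.centralBinom)
    (hc : ∀ {n c : ℕ} {Y p q : ℤ}, 2 ≤ n → 1 ≤ c → c ≤ n → Y ≠ 0 → 4 * p ^ 2 ≤ q ^ 2 → q ≠ 0 →
      c * Y ∣ 4 ^ n + c * n.centralBinom → K n Y c p q) (d : Dat) (a : ℕ) :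
    (∃ x : ℕ → ℕ, x d.ν = a ∧ x (d.ν + 1) = 1 ∧ d.P x = 0) ↔ ∃ f g : ℤ,
      K (xX (sS d a g (hf d (2 ^ a * f ^ 2)) (2 * hf d (2 ^ a * f ^ 2)))
        (tT d (2 ^ a * f ^ 2) (hf d (2 ^ a * f ^ 2)) (2 * hf d (2 ^ a * f ^ 2)))
        (nN d (2 * hf d (2 ^ a * f ^ 2)))) (nN d (2 * hf d (2 ^ a * f ^ 2)) ^ 2) (2 ^ a * f ^ 2) g
        ((2 * hf d (2 ^ a * f ^ 2)) ^ d.nn d.ν) := by
  have eb : ∀ f : ℤ, 2 ^ a * f ^ 2 = (2 ^ a * f.natAbs ^ 2 : ℕ) := fun f => by simp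
  have eH : ∀ b : ℕ, ((2 ^ (d.β + 1) * b ^ (d.δ + 1) : ℕ) : ℤ) = hf d b := fun b => by simp [hf]
  have e2 : ∀ H : ℕ, 2 * (H : ℤ) = (2 * H : ℕ) := by simp
  have ab : ∀ f : ℕ, f ≠ 0 → 1 ≤ 2 ^ a * f ^ 2 ∧ a ≤ 2 ^ a * f ^ 2 := fun f h =>
    ⟨Nat.pos_of_ne_zero (by positivity),
      a.lt_two_pow_self.le.trans (Nat.le_mul_of_pos_right _ (by positivity))⟩
  have tw : ∀ {b n : ℕ} {e : ℤ}, P2 b → b ≤ n → e = 1 ∨ e = -1 →
      (b * nN d (2 * hf d b) ^ 2 ∣ 4 ^ n + e * (b * n.centralBinom) ↔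
        nN d (2 * hf d b) ^ 2 ∣ n.centralBinom) := by
    rintro _ n e ⟨r, rfl⟩ h he
    obtain ⟨k, hk⟩ := nN_pow d r
    push_cast
    rw [hk]
    exact two_adic h he
  constructor
  · rintro ⟨x, x1, x2, x0⟩
    set r := ∑ j ∈ range d.ν, x j + 1 with hr
    set b := 2 ^ a * (2 ^ r) ^ 2 with hb
    have b1 : 2 ^ r ≤ b := (Nat.le_self_pow two_ne_zero _).trans
      (Nat.le_mul_of_pos_left _ (by positivity))
    have b2 : r < b := r.lt_two_pow_self.trans_le b1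
    have x3 : ∀ j < d.ν, x j < b := fun j hj =>
      (single_le_sum (fun _ _ => Nat.zero_le _) (mem_range.2 hj)).trans_lt (by omega)
    set H := 2 ^ (d.β + 1) * b ^ (d.δ + 1) with hH
    have H2 : b ≤ H := (Nat.le_self_pow (by omega) b).trans
      (Nat.le_mul_of_pos_left _ (by positivity))
    have u1 := small d.mono (show 2 * b ≤ 2 * H by omega) x d.ν x3
    set g := ∑ j ∈ range d.ν, x j * (2 * H) ^ d.nn j with hg
    have q0 : (0 : ℤ) < ((2 * H : ℕ) : ℤ) ^ d.nn d.ν := pow_pos (by omega) _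
    have u2 : 2 * (g : ℤ) ≤ ((2 * H : ℕ) : ℤ) ^ d.nn d.ν := by exact_mod_cast u1
    have u3 : 4 * (g : ℤ) ^ 2 ≤ (((2 * H : ℕ) : ℤ) ^ d.nn d.ν) ^ 2 := by
      nlinarith only [u2, Int.natCast_nonneg g]
    obtain ⟨n, n1, n2, n3, n4⟩ := code d (g := g) (ab (2 ^ r) (by positivity)).1
      (ab (2 ^ r) (by positivity)).2 (eH b) rfl (by nlinarith only [u3, q0])
    have pb : P2 b := P2.mul ⟨_, rfl⟩ (P2.pow ⟨_, rfl⟩ _)
    have n5 := (n4 pb).2 ⟨x, x1, x2, x0, x3, rfl⟩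
    rw [← hH, ← e2, eH] at n5
    have n6 := (tw pb n2 (Or.inl rfl)).2 n5
    rw [one_mul, ← eH, e2] at n6
    have h := hc (by omega) (by omega) n2 (by omega) u3 q0.ne' n6
    refine ⟨2 ^ r, g, ?_⟩
    have e1 : (2 : ℤ) ^ a * (2 ^ r) ^ 2 = b := by simp [hb]
    rw [e1, ← eH, e2, n1]
    exact h
  · rintro ⟨f, g, h⟩
    rw [eb, ← eH, e2] at h
    obtain ⟨h1, h2, h3⟩ := hs h
    have f0 := ab f.natAbs (by rintro g; simp [g] at h2)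
    generalize 2 ^ a * f.natAbs ^ 2 = b at *
    obtain ⟨n, n1, n2, -, n4⟩ := code d f0.1 f0.2 (eH _) rfl h1
    have h4 := h3 n b n1 rfl n2
    have h5 : (b : ℤ) ∣ 4 ^ n := by
      rcases h4 with h4 | h4
      · exact (dvd_add_left (dvd_mul_right _ _)).1 ((dvd_mul_right _ _).trans h4)
      · exact (dvd_sub_left (dvd_mul_right _ _)).1 ((dvd_mul_right _ _).trans h4)
    obtain ⟨r, -, hr⟩ := (Nat.dvd_prime_pow Nat.prime_two).1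
      (show b ∣ 2 ^ (2 * n) from Int.natCast_dvd_natCast.1 (by simpa [pow_mul] using h5))
    rw [← e2, eH] at h4 n4
    obtain ⟨x, x1, x2, x0, -⟩ := (n4 ⟨r, hr⟩).1 (by
      rcases h4 with h4 | h4
      · exact (tw ⟨r, hr⟩ n2 (Or.inl rfl)).1 (by rwa [one_mul])
      · exact (tw ⟨r, hr⟩ n2 (Or.inr rfl)).1 (by rwa [neg_one_mul, ← sub_eq_add_neg]))
    exact ⟨x, x1, x2, x0⟩

end Pool.Agent.MP_fed7c7_lc.H7
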