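import Mathlib
import Pool.Agent.MP_fed7c7_lc.H7.Reduce

set_option autoImplicit false

/-!
Every recursively enumerable set is defined by one equation in nine integer unknowns.
-/

namespace Pool.Agent.MP_fed7c7_lc.H7

open Finset Pool.Agent.MP_fed7c7_lc.H56

def k2 (X Z b p q V A C h l x y u z : ℤ) : ℤ :=
  fin A C X (rr A (Z * l) (2 * A * C) b p q) (V * h) 1 0 (pl (4 * X + 1) V) x y u z

def k1 (X Z b p q V h l x y u z : ℤ) : ℤ :=
  k2 X Z b p q V (V ^ 2) (X + (V ^ 2 - 1) * h) h l x y u z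

/-- The equation in the unknowns `v h l x y u z`. -/
def core9 (X Y b p q v h l x y u z : ℤ) : ℤ :=
  k1 X (b * Y) b p q (4 * X * (b * Y) * v) h l x y u z

section
variable {σ : Type} {X Y Z b p q v V A C h l x y u z : (σ → ℤ) → ℤ}

@[fun_prop]
theorem pf_k2 (_ : PF X) (_ : PF Z) (_ : PF b) (_ : PF p) (_ : PF q) (_ : PF V) (_ : PF A)
    (_ : PF C) (_ : PF h) (_ : PF l) (_ : PF x) (_ : PF y) (_ : PF u) (_ : PF z) : PF fun w =>
    k2 (X w) (Z w) (b w) (p w) (q w) (V w) (A w) (C w) (h w) (l w) (x w) (y w) (u w) (z w) := by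
  unfold k2; fun_prop

@[fun_prop]
theorem pf_k1 (_ : PF X) (_ : PF Z) (_ : PF b) (_ : PF p) (_ : PF q) (_ : PF V)
    (_ : PF h) (_ : PF l) (_ : PF x) (_ : PF y) (_ : PF u) (_ : PF z) : PF fun w =>
    k1 (X w) (Z w) (b w) (p w) (q w) (V w) (h w) (l w) (x w) (y w) (u w) (z w) := by
  unfold k1; fun_prop

@[fun_prop]
theorem pf_core9 (_ : PF X) (_ : PF Y) (_ : PF b) (_ : PF p) (_ : PF q) (_ : PF v)
    (_ : PF h) (_ : PF l) (_ : PF x) (_ : PF y) (_ : PF u) (_ : PF z) : PF fun w =>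
    core9 (X w) (Y w) (b w) (p w) (q w) (v w) (h w) (l w) (x w) (y w) (u w) (z w) := by
  unfold core9; fun_prop

end

theorem core9_sound {X Y b p q v h l x y u z : ℤ} (g : core9 X Y b p q v h l x y u z = 0) :
    p ^ 2 < q ^ 2 ∧ b ≠ 0 ∧ ∀ n c : ℕ, X = n → b = c → c ≤ n →
      b * Y ∣ 4 ^ n + b * n.centralBinom ∨ b * Y ∣ 4 ^ n - b * n.centralBinom := by
  unfold core9 k1 k2 at g
  set V := 4 * X * (b * Y) * v with hV
  obtain ⟨⟨s, hQ⟩, -, hR, hn, hC⟩ := fin_sound one_ne_zero g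
  have V0 := left_ne_zero_of_mul hn
  have h0 := right_ne_zero_of_mul hn
  have b0 : b ≠ 0 := by rintro rfl; simp at hV; exact V0 hV
  refine ⟨(rr_sound (sq_pos_of_ne_zero V0) hR).1, b0, ?_⟩
  rintro n c rfl rfl hc
  have c1 : 1 ≤ c := by omega
  have hA := large (s := s) hc (by omega) V0 ⟨c * Y * v, by rw [hV]; ring⟩ (by rw [sq, ← hQ, pl])
  have A1 := big_A c1 hA
  refine read_sound (by omega) c1 hA (hC (by omega) ?_) hR
    ⟨8 * n * v * V, by rw [sq]; nth_rw 1 [hV]; ring⟩ (dvd_mul_right _ _)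
  rw [abs_of_nonneg (by omega)]
  rcases lt_or_gt_of_ne h0 with g1 | g1
  · exact lt_abs.2 (Or.inr (by nlinarith))
  · exact lt_abs.2 (Or.inl (by nlinarith))

theorem core9_complete {n c : ℕ} {Y p q : ℤ} (hn : 2 ≤ n) (hc : 1 ≤ c) (hcn : c ≤ n) (hY : Y ≠ 0)
    (hp : 4 * p ^ 2 ≤ q ^ 2) (hq : q ≠ 0) (hd : c * Y ∣ 4 ^ n + c * n.centralBinom) :
    ∃ v h l x y u z, core9 n Y c p q v h l x y u z = 0 := by
  obtain ⟨v, s, v0, hs⟩ := exists_pell (d := (4 * n + 1) ^ 2 - 1) (N := 4 * n * (c * Y))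
    (by nlinarith) (by
      rintro ⟨e, he⟩
      have h1 : |e| < 4 * n + 1 := abs_lt_of_sq_lt_sq (by nlinarith) (by omega)
      nlinarith [sq_abs e, abs_nonneg e]) (by positivity)
  set V := 4 * n * (c * Y) * v with hV
  have V0 : V ≠ 0 := by positivity
  have hA := large hcn (by omega) V0 ⟨c * Y * v, by rw [hV]; ring⟩ hs
  have A1 := big_A hc hA
  obtain ⟨l, hl⟩ := read_complete (by omega) hc hA
    ⟨8 * n * v * V, by rw [sq]; nth_rw 1 [hV]; ring⟩ hd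
  obtain ⟨h, hh⟩ := ps_index (V ^ 2) n
  have h0 : h ≠ 0 := by
    rintro rfl
    have := index_le (A := V ^ 2) (by omega) n
    rw [show ps (V ^ 2) n = n by linarith, abs_of_nonneg (by omega)] at this
    omega
  obtain ⟨x, y, u, z, g⟩ := fin_complete (A := V ^ 2) (B := n) (n := V * h) (S := 1) (T := 0)
    (Q := pl (4 * n + 1) V) (by omega) (by omega) (hl p q hp hq) (mul_ne_zero V0 h0) (one_dvd _)
    ⟨s, by rw [pl, ← hs, sq]⟩
  refine ⟨v, h, l, x, y, u, z, ?_⟩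
  unfold core9 k1 k2
  rwa [← hV, show n + (V ^ 2 - 1) * h = ps (V ^ 2) n by linarith]

def e9 (d : Dat) (a g b H B v h l x y u z : ℤ) : ℤ :=
  core9 (xX (sS d a g H B) (tT d b H B) (nN d B)) (nN d B ^ 2) b g (B ^ d.nn d.ν) v h l x y u z

/-- The equation in nine unknowns with the parameters `a` and `e = 2 ^ a`. -/
def eqn9 (d : Dat) (a e : ℤ) (v : Fin 9 → ℤ) : ℤ :=
  e9 d a (v 1) (e * v 0 ^ 2) (hf d (e * v 0 ^ 2)) (2 * hf d (e * v 0 ^ 2))
    (v 2) (v 3) (v 4) (v 5) (v 6) (v 7) (v 8)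

@[fun_prop]
theorem pf_e9 {σ : Type} {a g b H B v h l x y u z : (σ → ℤ) → ℤ} (d : Dat) (_ : PF a) (_ : PF g)
    (_ : PF b) (_ : PF H) (_ : PF B) (_ : PF v) (_ : PF h) (_ : PF l) (_ : PF x) (_ : PF y)
    (_ : PF u) (_ : PF z) : PF fun w =>
    e9 d (a w) (g w) (b w) (H w) (B w) (v w) (h w) (l w) (x w) (y w) (u w) (z w) := by
  unfold e9 sS tT nN s1; fun_prop

theorem pf_eqn9 (d : Dat) : PF fun v : Fin 11 → ℤ => eqn9 d (v 0) (v 1) fun i => v i.succ.succ := by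
  unfold eqn9 hf; fun_prop

theorem eqn9_iff (d : Dat) (a : ℕ) :
    (∃ x : ℕ → ℕ, x d.ν = a ∧ x (d.ν + 1) = 1 ∧ d.P x = 0) ↔ ∃ v, eqn9 d a (2 ^ a) v = 0 := by
  rw [reduce (fun X Y b p q => ∃ v h l x y u z, core9 X Y b p q v h l x y u z = 0)
    (fun ⟨_, _, _, _, _, _, _, g⟩ => core9_sound g) core9_complete d a]
  exact ⟨fun ⟨f, g, v, h, l, x, y, u, z, e⟩ => ⟨![f, g, v, h, l, x, y, u, z], e⟩,
    fun ⟨v, e⟩ => ⟨_, _, _, _, _, _, _, _, _, e⟩⟩

/-- Recursively enumerable sets reduce to equations in nine integer unknowns. -/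
theorem reduction9 (p : ℕ → Prop) (hp : REPred p) :
    ∃ c : ℕ → List (ℤ × (Fin 9 → ℕ)), Primrec c ∧ ∀ a, p a ↔ ∃ x, ev (c a) x = 0 := by
  obtain ⟨d, hd⟩ := exists_dat p hp
  obtain ⟨c, h1, h2⟩ := exists_code (pf_eqn9 d)
  exact ⟨c, h1, fun a => by simp only [hd, eqn9_iff, h2]⟩

end Pool.Agent.MP_fed7c7_lc.H7
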